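import Pool.Agent.MP_bd94e8_al.H89.Spec

/-!
Transitivity of tests and conjugation of problems.
-/

set_option autoImplicit false
set_option linter.unusedVariables false
set_option linter.unusedSectionVars false

namespace Pool.Agent.MP_bd94e8_al.H89

open Module Function

theorem ht : SHT := by
  intro k F _ _ _ Pt Pt' _ _ _ _ B B' α γ h1 h2 hB C _ _ _ _ lam hl T I O _ _ _ _ tv tp hs α' γ'
    hγ S hS d v hdv
  refine hB C lam hl T I O tv tp hs (α * α') (γ' * γ) ?_ S ?_ d v hdv
  · intro t t' htt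
    have : γ' * γ * (α * α') = γ' * α' := by
      rw [Matrix.mul_assoc, ← Matrix.mul_assoc γ, h1, Matrix.one_mul]
    rw [this]
    exact hγ t t' htt
  · intro i j b hb
    have : γ' * γ * b * (α * α') = γ' * (γ * b * α) * α' := by
      simp only [Matrix.mul_assoc]
    rw [this]
    exact hS i j _ (h2 b hb)

namespace HtA

variable {k F : Type} [Field k] [Field F] [Algebra k F] {Pt ι : Type} [Fintype Pt]
  [DecidableEq Pt]

theorem mul3_ne {a b c : Matrix Pt Pt F} {q p : Pt} (h : (a * b * c) q p ≠ 0) :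
    ∃ r s, a q r ≠ 0 ∧ b r s ≠ 0 ∧ c s p ≠ 0 := by
  rw [Matrix.mul_apply] at h
  obtain ⟨s, -, hs⟩ := Finset.exists_ne_zero_of_sum_ne_zero h
  have h1 := left_ne_zero_of_mul hs
  rw [Matrix.mul_apply] at h1
  obtain ⟨r, -, hr⟩ := Finset.exists_ne_zero_of_sum_ne_zero h1
  exact ⟨r, s, left_ne_zero_of_mul hr, right_ne_zero_of_mul hr, right_ne_zero_of_mul hs⟩

theorem mul3_eq {a b c : Matrix Pt Pt F} {q p : Pt}
    (h : ∀ r s, a q r ≠ 0 → b r s ≠ 0 → c s p ≠ 0 → r = q ∧ s = p) :
    (a * b * c) q p = a q q * b q p * c p p := by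
  rw [Matrix.mul_apply, Finset.sum_eq_single p, Matrix.mul_apply, Finset.sum_mul,
    Finset.sum_eq_single q]
  · intro r _ hr
    by_contra hne
    exact hr (h r p (left_ne_zero_of_mul (left_ne_zero_of_mul hne))
      (right_ne_zero_of_mul (left_ne_zero_of_mul hne)) (right_ne_zero_of_mul hne)).1
  · simp
  · intro s _ hs
    by_contra hne
    have h1 := left_ne_zero_of_mul hne
    rw [Matrix.mul_apply] at h1
    obtain ⟨r, -, hr⟩ := Finset.exists_ne_zero_of_sum_ne_zero h1
    exact hs (h r s (left_ne_zero_of_mul hr) (right_ne_zero_of_mul hr)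
      (right_ne_zero_of_mul hne)).2
  · simp

theorem comm_e (P : Prob k F Pt ι Unit) {g : Matrix Pt Pt F}
    (hg : ∀ q p, g q p ≠ 0 → P.vt q = P.vt p) (i : ι) : g * P.e i = P.e i * g := by
  ext q p
  rw [Matrix.mul_apply, Matrix.mul_apply,
    Finset.sum_eq_single p (fun x _ hx => by rw [P.e_off i hx, mul_zero]) (by simp),
    Finset.sum_eq_single q (fun x _ hx => by rw [P.e_off i hx.symm, zero_mul]) (by simp)]
  by_cases h0 : g q p = 0
  · simp [h0]
  · have := hg q p h0
    by_cases hp : P.vt p = i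
    · rw [P.e_pos _ hp, P.e_pos _ (this.trans hp)]; simp
    · rw [P.e_neg _ hp, P.e_neg _ (fun h => hp (this.symm.trans h))]; simp

/-- Conjugation as an algebra homomorphism. -/
noncomputable def cj (k : Type) [Field k] [Algebra k F] (g g' : Matrix Pt Pt F) (h : g * g' = 1)
    (h' : g' * g = 1) : Matrix Pt Pt F →ₐ[k] Matrix Pt Pt F where
  toFun b := g * b * g'
  map_one' := by rw [Matrix.mul_one, h]
  map_mul' a b := by
    have : g * a * g' * (g * b * g') = g * a * (g' * g) * b * g' := by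
      simp only [Matrix.mul_assoc]
    rw [this, h', Matrix.mul_one]
    simp only [Matrix.mul_assoc]
  map_zero' := by simp
  map_add' a b := by rw [Matrix.mul_add, Matrix.add_mul]
  commutes' c := by
    rw [Algebra.algebraMap_eq_smul_one, Matrix.mul_smul, Matrix.smul_mul, Matrix.mul_one, h]

theorem cj_apply (g g' : Matrix Pt Pt F) (h : g * g' = 1) (h' : g' * g = 1) (b : Matrix Pt Pt F) :
    cj k g g' h h' b = g * b * g' := rfl

theorem cancel {g g' : Matrix Pt Pt F} (h : g * g' = 1) (b : Matrix Pt Pt F) :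
    g * (g' * b * g) * g' = b := by
  have : g * (g' * b * g) * g' = g * g' * b * (g * g') := by simp only [Matrix.mul_assoc]
  rw [this, h, Matrix.one_mul, Matrix.mul_one]

theorem exists_conj (P : Prob k F Pt ι Unit) (g g' : Matrix Pt Pt F) (h : g * g' = 1)
    (h' : g' * g = 1) (hg : ∀ q p, g q p ≠ 0 → P.vt q = P.vt p)
    (hg' : ∀ q p, g' q p ≠ 0 → P.vt q = P.vt p) : ∃ P', IsConj P P' g g' := by
  refine ⟨⟨P.vt, P.pk, P.B.comap (cj k g' g h' h), fun i => ?_, fun _ _ _ _ _ => rfl⟩,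
    rfl, h, h', hg, hg', fun b => Iff.rfl⟩
  change g' * P.e i * g ∈ P.B
  rw [comm_e P hg', Matrix.mul_assoc, h', Matrix.mul_one]
  exact P.e_mem i

variable {P P' : Prob k F Pt ι Unit} {g g' : Matrix Pt Pt F}

theorem symm (h : IsConj P P' g g') : IsConj P' P g' g where
  vt := h.vt.symm
  mul := h.mul'
  mul' := h.mul
  blk := by rw [h.vt]; exact h.blk'
  blk' := by rw [h.vt]; exact h.blk
  mem b := by rw [h.mem, cancel h.mul']

theorem e_eq (h : IsConj P P' g g') (i : ι) : P'.e i = P.e i := by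
  unfold Prob.e; rw [h.vt]

theorem cj_e (h : IsConj P P' g g') (i : ι) : g * P.e i * g' = P'.e i := by
  rw [comm_e P h.blk, Matrix.mul_assoc, h.mul, Matrix.mul_one, e_eq h]

theorem memH (h : IsConj P P' g g') {i j : ι} {b : Matrix Pt Pt F} (hb : b ∈ P'.H i j) :
    g' * b * g ∈ P.H i j := by
  refine ⟨(h.mem b).1 hb.1, fun q p hqp => ?_⟩
  obtain ⟨r, s, h1, h2, h3⟩ := mul3_ne hqp
  have := hb.2 r s h2
  rw [h.vt] at this
  exact ⟨(h.blk s p h3).symm.trans this.1, (h.blk' q r h1).trans this.2⟩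

theorem memB (h : IsConj P P' g g') {b : Matrix Pt Pt F} (hb : b ∈ P.B) : g * b * g' ∈ P'.B :=
  ((symm h).mem b).1 hb

theorem nil (h : IsConj P P' g g') {x y : Matrix Pt Pt F} (hx : IsNilpotent x)
    (e : cj k g g' h.mul h.mul' x = y) : IsNilpotent y := e ▸ hx.map _

theorem cj_back (h : IsConj P P' g g') (b : Matrix Pt Pt F) :
    cj k g g' h.mul h.mul' (g' * b * g) = b := cancel h.mul b

theorem basic (h : IsConj P P' g g')
    (hP : ∀ i j, i ≠ j → ∀ b ∈ P.H i j, ∀ b' ∈ P.H j i, IsNilpotent (b' * b)) :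
    ∀ i j, i ≠ j → ∀ b ∈ P'.H i j, ∀ b' ∈ P'.H j i, IsNilpotent (b' * b) :=
  fun i j hij b hb b' hb' => nil h (hP i j hij _ (memH h hb) _ (memH h hb'))
    (by rw [map_mul, cj_back h, cj_back h])

theorem piloc (h : IsConj P P' g g') (hP : PILoc P) : PILoc P' where
  pi i b hb := by
    obtain ⟨r, c, hn⟩ := hP.pi i _ (memH h hb)
    refine ⟨r, c, nil h hn ?_⟩
    rw [map_sub, map_pow, map_smul, cj_back h, cj_apply, cj_e h]
  comm i b hb b' hb' := nil h (hP.comm i _ (memH h hb) _ (memH h hb'))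
    (by rw [map_sub, map_mul _ (g' * b * g), map_mul _ (g' * b' * g), cj_back h, cj_back h])
  basic := basic h hP.basic

section obj
variable {V : Type} [AddCommGroup V] [Module F V]

theorem act_mul (a b : Matrix Pt Pt F) (u : Pt → V) : act a (act b u) = act (a * b) u := by
  funext q
  simp only [act, Matrix.mul_apply, Finset.smul_sum, Finset.sum_smul, mul_smul]
  rw [Finset.sum_comm]

theorem act_one (u : Pt → V) : act (1 : Matrix Pt Pt F) u = u := by
  funext q
  simp only [act]
  rw [Finset.sum_eq_single q (fun x _ hx => by rw [Matrix.one_apply_ne hx.symm, zero_smul])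
    (by simp), Matrix.one_apply_eq, one_smul]

theorem act_map (a : Matrix Pt Pt F) (e : V →ₗ[F] V) (u : Pt → V) :
    act a (fun p => e (u p)) = fun p => e (act a u p) := by
  funext q
  simp [act]

/-- The conjugated object. -/
def cobj (h : IsConj P P' g g') (M : Obj P V) : Obj P' V where
  ε := M.ε
  orth := M.orth
  sum := M.sum
  U :=
    { carrier := {u | act g' u ∈ M.U}
      add_mem' := fun {a b} ha hb => by
        have : act g' (a + b) = act g' a + act g' b := by
          funext q; simp [act, Finset.sum_add_distrib]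
        change act g' (a + b) ∈ M.U
        rw [this]; exact M.U.add_mem ha hb
      zero_mem' := by
        have : act g' (0 : Pt → V) = 0 := by funext q; simp [act]
        change act g' (0 : Pt → V) ∈ M.U
        rw [this]; exact M.U.zero_mem
      neg_mem' := fun {a} ha => by
        have : act g' (-a) = -act g' a := by funext q; simp [act]
        change act g' (-a) ∈ M.U
        rw [this]; exact M.U.neg_mem ha }
  peak u hu p := by
    have := LinearMap.congr_fun M.sum (u p)
    simpa using this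
  stab b hb u hu := by
    have := M.stab _ ((h.mem b).1 hb) _ hu
    change act g' (act b u) ∈ M.U
    rw [act_mul, Matrix.mul_assoc, h.mul, Matrix.mul_one] at this
    rw [act_mul]; exact this

theorem cobj_indec (h : IsConj P P' g g') (M : Obj P V) (hM : M.Indec) : (cobj h M).Indec := by
  refine ⟨hM.1, fun e he hee => hM.2 e ⟨he.1, fun u hu => ?_⟩ hee⟩
  have h1 : act g u ∈ (cobj h M).U := by
    change act g' (act g u) ∈ M.U
    rw [act_mul, h.mul', act_one]; exact hu
  have h2 : act g' (fun p => e (act g u p)) ∈ M.U := he.2 _ h1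
  rwa [act_map, act_mul, h.mul', act_one] at h2

end obj

theorem bnd (h : IsConj P P' g g') (hP : P'.Bnd) : P.Bnd := by
  obtain ⟨c, hc⟩ := hP
  exact ⟨c, fun V _ _ _ M hM => hc V (cobj h M) (cobj_indec h M hM)⟩

/-- Conjugation identifies the blocks. -/
noncomputable def eqH (h : IsConj P P' g g') (i j : ι) : P'.H i j ≃ₗ[k] P.H i j where
  toFun b := ⟨g' * b.1 * g, memH h b.2⟩
  invFun b := ⟨g * b.1 * g', memH (symm h) b.2⟩
  map_add' a b := Subtype.ext (by simp [Matrix.mul_add, Matrix.add_mul])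
  map_smul' c a := Subtype.ext (by simp)
  left_inv b := Subtype.ext (cancel h.mul b.1)
  right_inv b := Subtype.ext (cancel h.mul' b.1)

theorem supp_mulVec {a : Matrix Pt Pt F} (ha : ∀ q p, a q p ≠ 0 → P.vt q = P.vt p) {z : ι}
    {x : Pt → F} (hx : ∀ p, P.vt p ≠ z → x p = 0) : ∀ p, P.vt p ≠ z → a.mulVec x p = 0 := by
  intro q hq
  refine Finset.sum_eq_zero fun p _ => ?_
  by_cases h0 : a q p = 0
  · simp [h0]
  · simp [hx p fun e => hq ((ha q p h0).trans e)]

theorem supp_vecMul {a : Matrix Pt Pt F} (ha : ∀ q p, a q p ≠ 0 → P.vt q = P.vt p) {z : ι}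
    {x : Pt → F} (hx : ∀ p, P.vt p ≠ z → x p = 0) :
    ∀ p, P.vt p ≠ z → Matrix.vecMul x a p = 0 := by
  intro p hp
  refine Finset.sum_eq_zero fun q _ => ?_
  by_cases h0 : a q p = 0
  · simp [h0]
  · simp [hx q fun e => hp ((ha q p h0).symm.trans e)]

theorem col (h : IsConj P P' g g') {z : ι} (hP : ColSimple P z) : ColSimple P' z := by
  intro W h1 h2
  rw [h.vt] at h1 ⊢
  have e1 : ∀ x : Pt → F, g.mulVec (g'.mulVec x) = x := fun x => by
    rw [Matrix.mulVec_mulVec, h.mul, Matrix.one_mulVec]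
  have e2 : ∀ x : Pt → F, g'.mulVec (g.mulVec x) = x := fun x => by
    rw [Matrix.mulVec_mulVec, h.mul', Matrix.one_mulVec]
  rcases hP (W.comap g.mulVecLin) (fun x hx => by
      rw [← e2 x]; exact supp_mulVec h.blk' (h1 _ hx)) (fun b hb x hx => by
      have := h2 _ (memH (symm h) hb) _ hx
      change g.mulVec (b.mulVec x) ∈ W
      change (g * b * g').mulVec (g.mulVec x) ∈ W at this
      rwa [← Matrix.mulVec_mulVec, e2, ← Matrix.mulVec_mulVec] at this) with h3 | h3
  · left
    refine (Submodule.eq_bot_iff _).2 fun x hx => ?_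
    have : g'.mulVec x ∈ W.comap g.mulVecLin := by
      change g.mulVec (g'.mulVec x) ∈ W
      rw [e1]; exact hx
    rw [h3, Submodule.mem_bot] at this
    rw [← e1 x, this, Matrix.mulVec_zero]
  · right
    intro x hx
    have : g.mulVec (g'.mulVec x) ∈ W := h3 _ (supp_mulVec h.blk' hx)
    rwa [e1] at this

theorem row (h : IsConj P P' g g') {z : ι} (hP : RowSimple P z) : RowSimple P' z := by
  intro W h1 h2
  rw [h.vt] at h1 ⊢
  have e1 : ∀ x : Pt → F, Matrix.vecMul (Matrix.vecMul x g) g' = x := fun x => by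
    rw [Matrix.vecMul_vecMul, h.mul, Matrix.vecMul_one]
  have e2 : ∀ x : Pt → F, Matrix.vecMul (Matrix.vecMul x g') g = x := fun x => by
    rw [Matrix.vecMul_vecMul, h.mul', Matrix.vecMul_one]
  rcases hP (W.comap g'.vecMulLinear) (fun x hx => by
      rw [← e2 x]; exact supp_vecMul h.blk (h1 _ hx)) (fun b hb x hx => by
      have := h2 _ (memH (symm h) hb) _ hx
      change Matrix.vecMul (Matrix.vecMul x b) g' ∈ W
      change Matrix.vecMul (Matrix.vecMul x g') (g * b * g') ∈ W at this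
      rwa [← Matrix.vecMul_vecMul, ← Matrix.vecMul_vecMul, e2] at this) with h3 | h3
  · left
    refine (Submodule.eq_bot_iff _).2 fun x hx => ?_
    have : Matrix.vecMul x g ∈ W.comap g'.vecMulLinear := by
      change Matrix.vecMul (Matrix.vecMul x g) g' ∈ W
      rw [e1]; exact hx
    rw [h3, Submodule.mem_bot] at this
    rw [← e1 x, this, Matrix.zero_vecMul]
  · right
    intro x hx
    have : Matrix.vecMul (Matrix.vecMul x g) g' ∈ W := h3 _ (supp_vecMul h.blk hx)
    rwa [e1] at this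

section flag
variable {val : Set ι} {ht : Pt → ℕ}

theorem tri0 (h : IsConj P P' g g') (hg : ∀ q p, g q p ≠ 0 → P.vt p ∉ val → ht p ≤ ht q)
    (hg' : ∀ q p, g' q p ≠ 0 → P.vt p ∉ val → ht p ≤ ht q) (hF : Flag P val ht)
    {b : Matrix Pt Pt F} (hb : b = 1 ∨ b ∈ P.B) {q p r s : Pt} (hqp : P.vt q = P.vt p)
    (hp : P.vt p ∉ val) (h1 : g q r ≠ 0) (h2 : b r s ≠ 0) (h3 : g' s p ≠ 0) :
    P.vt r = P.vt p ∧ P.vt s = P.vt p ∧ ht p ≤ ht s ∧ ht s ≤ ht r ∧ ht r ≤ ht q := by
  have er : P.vt r = P.vt p := (h.blk q r h1).symm.trans hqp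
  have es : P.vt s = P.vt p := h.blk' s p h3
  have hb' : b ∈ P.B := by
    rcases hb with rfl | hb
    · exact P.B.one_mem
    · exact hb
  exact ⟨er, es, hg' s p h3 hp, hF.tri b hb' r s (er.trans es.symm) (es ▸ hp) h2,
    hg q r h1 (er ▸ hp)⟩

theorem diag0 (h : IsConj P P' g g') (hg : ∀ q p, g q p ≠ 0 → P.vt p ∉ val → ht p ≤ ht q)
    (hg' : ∀ q p, g' q p ≠ 0 → P.vt p ∉ val → ht p ≤ ht q) (hF : Flag P val ht)
    {b : Matrix Pt Pt F} (hb : b ∈ P.B) {p : Pt} (hp : P.vt p ∉ val) :
    (g * b * g') p p = g p p * b p p * g' p p := by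
  refine mul3_eq fun r s h1 h2 h3 => ?_
  obtain ⟨er, es, a1, a2, a3⟩ := tri0 h hg hg' hF (Or.inr hb) rfl hp h1 h2 h3
  exact ⟨hF.inj r p er (er ▸ hp) (by omega), hF.inj s p es (es ▸ hp) (by omega)⟩

theorem diag1 (h : IsConj P P' g g') (hg : ∀ q p, g q p ≠ 0 → P.vt p ∉ val → ht p ≤ ht q)
    (hg' : ∀ q p, g' q p ≠ 0 → P.vt p ∉ val → ht p ≤ ht q) (hF : Flag P val ht)
    {p : Pt} (hp : P.vt p ∉ val) : g p p * g' p p = 1 := by
  have := diag0 h hg hg' hF P.B.one_mem hp
  rw [Matrix.mul_one, h.mul, Matrix.one_apply_eq, mul_one] at this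
  exact this.symm

theorem diag2 (h : IsConj P P' g g') (hg : ∀ q p, g q p ≠ 0 → P.vt p ∉ val → ht p ≤ ht q)
    (hg' : ∀ q p, g' q p ≠ 0 → P.vt p ∉ val → ht p ≤ ht q) (hF : Flag P val ht)
    {b : Matrix Pt Pt F} (hb : b ∈ P.B) {p : Pt} (hp : P.vt p ∉ val) :
    (g * b * g') p p = b p p := by
  rw [diag0 h hg hg' hF hb hp, mul_comm (g p p), mul_assoc, diag1 h hg hg' hF hp, mul_one]

theorem step0 (h : IsConj P P' g g') (hg : ∀ q p, g q p ≠ 0 → P.vt p ∉ val → ht p ≤ ht q)
    (hg' : ∀ q p, g' q p ≠ 0 → P.vt p ∉ val → ht p ≤ ht q) (hF : Flag P val ht)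
    {p q : Pt} (hpq : P.vt p = P.vt q) (hp : P.vt p ∉ val) (hlt : ht p < ht q)
    (hm : ∀ m, P.vt m = P.vt p → ht p < ht m → ht m < ht q → False) :
    ∃ b ∈ P'.B, b q p ≠ 0 ∧ b p p = 0 := by
  obtain ⟨b, hb, h1, h2⟩ := hF.step p q hpq hp hlt
  refine ⟨g * b * g', memB h hb, ?_, by rw [diag2 h hg hg' hF hb hp, h2]⟩
  have hq : P.vt q ∉ val := hpq ▸ hp
  rw [mul3_eq]
  · exact mul_ne_zero (mul_ne_zero (left_ne_zero_of_mul_eq_one (diag1 h hg hg' hF hq)) h1)
      (right_ne_zero_of_mul_eq_one (diag1 h hg hg' hF hp))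
  · intro r s a1 a2 a3
    obtain ⟨er, es, b1, b2, b3⟩ := tri0 h hg hg' hF (Or.inr hb) hpq.symm hp a1 a2 a3
    have hrs : r ≠ s := by
      rintro rfl
      exact a2 ((hF.diag b hb r p er (er ▸ hp)).trans h2)
    have hlt' : ht s < ht r := lt_of_le_of_ne b2 fun e =>
      hrs (hF.inj r s (er.trans es.symm) (er ▸ hp) e.symm)
    constructor
    · refine hF.inj r q (er.trans hpq) (er ▸ hp) ?_
      by_contra hne
      exact hm r er (by omega) (by omega)
    · refine hF.inj s p es (es ▸ hp) ?_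
      by_contra hne
      exact hm s es (by omega) (by omega)

theorem flag (h : IsConj P P' g g') (hg : ∀ q p, g q p ≠ 0 → P.vt p ∉ val → ht p ≤ ht q)
    (hg' : ∀ q p, g' q p ≠ 0 → P.vt p ∉ val → ht p ≤ ht q) (hF : Flag P val ht) :
    Flag P' val ht := by
  have hv := h.vt
  have tri : ∀ b ∈ P'.B, ∀ q p, P.vt q = P.vt p → P.vt p ∉ val → b q p ≠ 0 → ht p ≤ ht q := by
    intro b hb q p hqp hp hne
    rw [← cancel h.mul b] at hne
    obtain ⟨r, s, h1, h2, h3⟩ := mul3_ne hne
    obtain ⟨-, -, a1, a2, a3⟩ := tri0 h hg hg' hF (Or.inr ((h.mem b).1 hb)) hqp hp h1 h2 h3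
    omega
  have diag : ∀ b ∈ P'.B, ∀ p q, P.vt p = P.vt q → P.vt p ∉ val → b p p = b q q := by
    intro b hb p q hpq hp
    have hb' := (h.mem b).1 hb
    rw [← cancel h.mul b, diag2 h hg hg' hF hb' hp, diag2 h hg hg' hF hb' (hpq ▸ hp)]
    exact hF.diag _ hb' p q hpq hp
  refine ⟨by rw [hv]; exact hF.inj, by rw [hv]; exact hF.three, by rw [hv]; exact tri,
    by rw [hv]; exact diag, ?_, ?_, basic h hF.basic, ?_, fun z hz => col h (hF.col z hz),
    fun z hz => row h (hF.row z hz), ?_⟩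
  · rw [hv]
    intro p hp c
    obtain ⟨b, hb, e⟩ := hF.onto p hp c
    exact ⟨_, memB h hb, by rw [diag2 h hg hg' hF hb hp, e]⟩
  · rw [hv]
    intro p q hpq hp hlt
    by_cases hm : ∃ m, P.vt m = P.vt p ∧ ht p < ht m ∧ ht m < ht q
    · obtain ⟨m, em, l1, l2⟩ := hm
      have all : ∀ r, P.vt r = P.vt p → r = p ∨ r = m ∨ r = q := by
        intro r er
        rcases hF.three _ hp r p m q er rfl em hpq.symm with e | e | e | e | e | e
        · exact Or.inl e
        · exact Or.inr (Or.inl e)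
        · exact Or.inr (Or.inr e)
        · subst e; omega
        · subst e; omega
        · subst e; omega
      obtain ⟨b1, hb1, c1, d1⟩ := step0 h hg hg' hF em.symm hp l1 (fun r er a1 a2 => by
        rcases all r er with rfl | rfl | rfl <;> omega)
      obtain ⟨b2, hb2, c2, d2⟩ := step0 h hg hg' hF (em.trans hpq) (em ▸ hp) l2
        (fun r er a1 a2 => by rcases all r (er.trans em) with rfl | rfl | rfl <;> omega)
      have hin : ∀ r, P.vt r ≠ P.vt p → P'.blk (P.vt p) (P.vt p) b1 r p = 0 := fun r hr =>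
        P'.blk_neg _ fun e => hr (hv ▸ e.2)
      have hpos : ∀ r, P.vt r = P.vt p → P'.blk (P.vt p) (P.vt p) b1 r p = b1 r p := fun r hr =>
        P'.blk_pos _ (by rw [hv]) (by rw [hv]; exact hr)
      refine ⟨b2 * P'.blk (P.vt p) (P.vt p) b1, P'.B.mul_mem hb2 (P'.blk_mem hb1 _ _).1, ?_, ?_⟩
      · rw [Matrix.mul_apply, Finset.sum_eq_single m, hpos m em]
        · exact mul_ne_zero c2 c1
        · intro r _ hr
          by_cases er : P.vt r = P.vt p
          · rcases all r er with rfl | rfl | rfl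
            · rw [hpos r er, d1, mul_zero]
            · exact (hr rfl).elim
            · rw [← diag b2 hb2 m r (em.trans hpq) (em ▸ hp), d2, zero_mul]
          · rw [hin r er, mul_zero]
        · simp
      · rw [Matrix.mul_apply]
        refine Finset.sum_eq_zero fun r _ => ?_
        by_cases er : P.vt r = P.vt p
        · by_cases hrp : r = p
          · rw [hpos r er, hrp, d1, mul_zero]
          · have : b2 p r = 0 := by
              by_contra hne
              have := tri b2 hb2 p r er.symm (er ▸ hp) hne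
              rcases all r er with rfl | rfl | rfl
              · exact hrp rfl
              · omega
              · omega
            rw [this, zero_mul]
        · rw [hin r er, mul_zero]
    · exact step0 h hg hg' hF hpq hp hlt fun m a b c => hm ⟨m, a, b, c⟩
  · intro z hz b hb hne
    obtain ⟨c, hc, e⟩ := hF.div z hz _ (memH h hb) (fun e => hne (by
      rw [← cancel h.mul b, e, Matrix.mul_zero, Matrix.zero_mul]))
    refine ⟨g * c * g', memH (symm h) hc, ?_⟩
    have := congrArg (cj k g g' h.mul h.mul') e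
    rw [map_mul _ c, cj_back h, cj_apply, cj_apply, cj_e h] at this
    exact this
  · intro z hz
    rw [hv, (eqH h z z).finrank_eq]
    exact hF.num z hz

end flag

end HtA

theorem conj : SConj := by
  intro k F _ _ _ Pt ι _ _ P
  exact ⟨HtA.exists_conj P, fun P' g g' h => ⟨HtA.bnd h, HtA.piloc h,
    fun val ht hg hg' hF => HtA.flag h hg hg' hF⟩⟩

end Pool.Agent.MP_bd94e8_al.H89
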